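import Pool.Agent.Work.MP_609cce_lc_alg2.Main3
import Pool.Agent.Work.MP_609cce_lc_alg.KBMain

/-!
# The OR-distillation conjecture between `P ≠ NP` (and collision resistant hashing) and `NP ≠ coNP`,
for algebrizing proofs
-/

open ORDist OAlg

theorem Pool.Agent.Results.MP_609cce_lc.AlgebraicSandwich.result (Φ : Fields) :
    (∃ (A : List Bool → Bool) (f : ExtF Φ), IsExt Φ A f ∧
      (∃ L : Set (List Bool), InUPO A L ∧ InUPO A Lᶜ ∧ ¬ InPPolyO (extO Φ A f) L ∧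
        ∀ M : OProc, Computable M → ∃ n₀ : ℕ, ∀ n ≥ n₀,
          ∀ a : List Bool, a.length ≤ 2 ^ (n / 7) →
            ({x : List Bool | x.length = n ∧ ∃ v : Bool,
              RunsTo (extO Φ A f) M (pairStr (x, a)) (2 ^ (n / 7)) v ∧
                (x ∈ L ↔ v = true)}.ncard : ℝ) ≤ (1 / 2 + 1 / 2 ^ (n / 7)) * 2 ^ n) ∧
      ∃ R : Set (List Bool), (InUPO A R ∧ InUPO A Rᶜ) ∧
        (∀ L : Set (List Bool), InPSPACEO (extO Φ A f) L ∨ InNPO (extO Φ A f) L →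
          ∃ g : List Bool → List Bool, PolyTime (fun x => x) (fun x => x) g ∧
            ∀ x, x ∈ L ↔ g x ∈ R) ∧
        ∃ D : List (List Bool) → List Bool, PolyTimeO A seqBits D ∧
          (∀ (n : ℕ) (xs : List (List Bool)), (∀ x ∈ xs, x.length ≤ n) →
            (D xs).length ≤ n + 3) ∧
          (∀ xs : List (List Bool), D xs ∈ R ↔ ∃ x ∈ xs, x ∈ R) ∧
          (∀ M : OProc, Computable M → ∃ n₀ : ℕ, ∀ n ≥ n₀, ∀ xs ys : List (List Bool),
            RunsOut (extO Φ A f) M (List.replicate n true) (2 ^ (n / 7))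
              (pairStr (seqBits xs, seqBits ys)) →
            (seqBits xs).length ≤ 2 ^ (n / 7) → (seqBits ys).length ≤ 2 ^ (n / 7) →
            (∃ x ∈ xs, n ≤ x.length) → xs ≠ ys → D xs ≠ D ys) ∧
          ∀ M : OProc, Computable M → ∃ n₀ : ℕ, ∀ n ≥ n₀,
            ∀ a : List Bool, a.length ≤ 2 ^ (n / 7) →
              ({z : List Bool | z.length = n ∧ ∃ xs ys : List (List Bool),
                RunsOut (extO Φ A f) M (pairStr (z, a)) (2 ^ (n / 7))
                  (pairStr (seqBits xs, seqBits ys)) ∧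
                (seqBits xs).length ≤ 2 ^ (n / 7) ∧ (seqBits ys).length ≤ 2 ^ (n / 7) ∧
                xs ≠ ys ∧ D (z :: xs) = D (z :: ys)}.ncard : ℝ) ≤ 2 ^ n / 2 ^ (n / 7)) ∧
    ∃ (B : List Bool → Bool) (f : ExtF Φ), IsExt Φ B f ∧
      (∀ L : Set (List Bool), InPSPACEO (extO Φ B f) L ∨ InNPO (extO Φ B f) L →
        InUPO B L ∧ InUPO B Lᶜ) ∧
      (∃ L : Set (List Bool), InNPO B L ∧ ¬ InPO (extO Φ B f) L) ∧
      ∀ R : Set (List Bool), (∀ L : Set (List Bool), InNPO B L →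
        ∃ g : List Bool → List Bool, PolyTimeO (extO Φ B f) (fun x => x) g ∧
          ∀ x, x ∈ L ↔ g x ∈ R) →
        ∀ (R' : Set (List Bool)) (D : List (List Bool) → List Bool),
          PolyTimeO (extO Φ B f) seqBits D →
          ((∀ xs, xs ≠ [] → (D xs ∈ R' ↔ ∃ x ∈ xs, x ∈ R)) ∨
            ∀ xs, xs ≠ [] → (D xs ∈ R' ↔ ∀ x ∈ xs, x ∈ R)) →
          ∀ (p : Polynomial ℕ) (n₀ : ℕ), ∃ n ≥ n₀, ∀ m, 1 ≤ m → m ≤ p.eval n →
            ∃ xs : List (List Bool), xs.length = m ∧ (∀ x ∈ xs, x.length ≤ n) ∧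
              m ≤ (D xs).length :=
  ⟨alg_main3 Φ, KB.keyB_main Φ⟩
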