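import Pool.Agent.Work.MP_609cce_lc.SymFinal
import Pool.Agent.Work.MP_609cce_lc.SymSat

/-!
# No definable OR-distillation for NP-hard classes of structures

The OR-distillation question in the setting of descriptive complexity: instances are finite
structures (without a linear order), NP is existential second-order definability (Fagin), and the
algorithms are given by formulas of infinitary logic with counting quantifiers and `w` variables.
Every algorithm definable in fixed-point logic with counting is of this kind on structures of
bounded size, with `w` fixed. All definitions are in `Pool.Agent.Work.MP_609cce_lc.SymDefs`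
(`Compresses` and `change` in `SymFinal`). The hypothesis `NPHard R` holds, for example, for the
satisfiability problem of Boolean circuits (`circuitSat_hard` in `SymSat`).
-/

set_option autoImplicit false

namespace Pool.Agent.Results.MP_609cce_lc.DefinableDistillation

open Pool.MP_609cce_lc.Sym

/-- Let `R` be an NP-hard class of finite structures. There is a constant `C` such that, whenever
`n ≥ C (w + 1) ^ C`, every random interpretation `D` with `w` variables that compresses, with
advantage `δ`, the OR of `m` instances of `R` with at most `n` elements each to structures with
at most `q` elements on average satisfies `4 δ m ≤ w q`. The same bound holds for every other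
property `g` of the sequence of truth values, with `m` replaced by the number `k` of pairwise
disjoint sets `P j` of positions such that changing the truth values at the positions in `P j`
changes `g u`. -/
theorem result {σ : Voc} (R : Set (FinStr σ)) (hR : NPHard R) :
    ∃ C : ℕ, ∀ w n : ℕ, C * (w + 1) ^ C ≤ n → ∀ (m : ℕ) (q δ : ℝ) (τ : Voc) (Ω : Type)
      [Fintype Ω] [Nonempty Ω] (D : Ω → Interp σ τ m w) (T : Ω → Set (FinStr τ)),
      (∀ ω, IsoClosed (T ω)) →
        (Compresses R n q δ D T (fun s => ∃ i, s i) → 4 * δ * m ≤ w * q) ∧
        ∀ g : (Fin m → Prop) → Prop, Compresses R n q δ D T g →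
          ∀ (u : Fin m → Prop) (k : ℕ) (P : Fin k → Set (Fin m)),
            Pairwise (Function.onFun Disjoint P) → (∀ j, ¬ (g (change u (P j)) ↔ g u)) →
            4 * δ * k ≤ w * q := by
  obtain ⟨C, hC⟩ := main R hR
  refine ⟨C, fun w n hn m q δ τ Ω _ _ D T hT => ⟨fun h => ?_, fun g hg u k P hP hgP =>
    hC w n hn m q δ τ Ω D T hT g hg u k P hP hgP⟩⟩
  refine hC w n hn m q δ τ Ω D T hT _ h (fun _ => False) m (fun j => {j}) ?_ ?_
  · intro i j hij
    exact Set.disjoint_singleton.2 hij
  · intro j hj
    obtain ⟨_, h⟩ := hj.1 ⟨j, Or.inl ⟨rfl, fun h => h⟩⟩
    exact h

end Pool.Agent.Results.MP_609cce_lc.DefinableDistillation
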