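import Pool.Agent.Work.MP_609cce_lc_nd.NConv
import Pool.Agent.Work.MP_609cce_lc_nd.NInst

/-!
# OR-distillations of NP-hard languages, deterministic and nondeterministic, and NP = coNP
-/

open ORDist

/-- If an NP-hard language (for instance an NP-complete language) over a finite alphabet `S` has an
OR-distillation, or only an OR-compression of some number `m (n)` of strings of length at most `n`
to `O (log n)` symbols per string, in both cases into an arbitrary target language, then
NP = coNP. A nondeterministic OR-compression is enough. And an NP-complete language of bit strings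
has a nondeterministic OR-distillation into itself if and only if NP = coNP. -/
theorem Pool.Agent.Results.MP_609cce_lc.DistillNPcoNP.result {S : Type} [Finite S] [Nonempty S] :
    (∀ R R' : Set (List S), NPHard R →
      (∃ D : List (List S) → List S, ORDistillation R R' D) →
        ∀ L : Set (List Bool), InNP L → InNP Lᶜ) ∧
    (∀ R R' : Set (List S), NPHard R →
      (∃ D : List (List S) → List S, ORCompressionLog R R' D) →
        ∀ L : Set (List Bool), InNP L → InNP Lᶜ) ∧
    (∀ (w : S → List Bool) (R : Set (List S)) (R' : Set (List Bool)), NPHard R →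
      (∃ D : List Bool × List (List Bool) → Option (List Bool), NDCompression w R R' D) →
        ∀ L : Set (List Bool), InNP L → InNP Lᶜ) ∧
    ∀ R : Set (List Bool), InNP R → NPHard R →
      ((∃ D : List Bool × List (List Bool) → Option (List Bool), NDDistillation R R D) ↔
        ∀ L : Set (List Bool), InNP L → InNP Lᶜ) :=
  ⟨fun _ _ hR ⟨_, hD⟩ => np_eq_conp_log hR hD.compressionLog,
    fun _ _ hR ⟨_, hD⟩ => np_eq_conp_log hR hD,
    fun _ _ _ hR ⟨_, hD⟩ => np_eq_conp_nd hR hD,
    fun _ hNP hR => ⟨fun ⟨_, hD⟩ => np_eq_conp_nd hR hD.compression, nd_of_np_eq_conp hNP hR⟩⟩
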