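import Pool.Agent.Work.MP_609cce_lc_szk.RFinal
import Pool.Agent.Work.MP_609cce_lc_szk.CollO

/-!
# OR-distillation, statistical zero knowledge and collisions
-/

open ORDist

/-- Let the language `R` over a finite alphabet be NP-hard.

(1) Let `R` have an OR-distillation, or only an OR-compression of some number `m (n)` (at most
polynomial in `n`) of strings of length at most `n` to `O (log n)` symbols per string, into an
arbitrary target language.  Then every `L` in NP is decided in polynomial time with every oracle
which tells pairs of samplers (from a suitable polynomial time family) with disjoint supports from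
pairs at a statistical distance of at most `2^(-n)`; and, for a suitable polynomial time family of
maps `{0,1}^n → {0,1}^(n-1)`, in polynomial time with every oracle which gives collisions of these
maps bit by bit, and without an oracle if collisions can be found in polynomial time.

(2) Let `R` have a randomized OR-distillation with two-sided error `1/3` into an arbitrary target
language.  Then every `L` in NP is decided in polynomial time with every oracle for the promise
problem Statistical Difference (`2/3` against `1/3`, for a suitable polynomial time family of pairs
of samplers).  So P = NP if Statistical Difference is in P. -/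
theorem Pool.Agent.Results.MP_609cce_lc.DistillSZK.result {S : Type} [Finite S] [Nonempty S]
    (R R' : Set (List S)) (hR : NPHard R) :
    ((∃ D : List (List S) → List S, ORDistillation R R' D ∨ ORCompressionLog R R' D) →
      (∀ L : Set (List Bool), InNP L → ∃ (C : List Bool × List Bool → List Bool)
        (l : Polynomial ℕ), PolyTime pairStr (fun y => y) C ∧
          ∀ W : List Bool → Bool, Tells C l W → InPO W L) ∧
      (∀ L : Set (List Bool), InNP L → ∃ C : List Bool × List Bool → List Bool,
        Shrinking C ∧ (∀ W : List Bool → Bool, ORZ.GivesCollisions C W → InPO W L) ∧
          ((∃ A, CollisionFinder C A) → InP L)) ∧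
      (PWPPInFP → ∀ L : Set (List Bool), InNP L → InP L)) ∧
    ((∃ D : List Bool × List (List S) → List S, RandORDistillation R R' D) →
      (∀ L : Set (List Bool), InNP L → ∃ (C : List Bool × List Bool → List Bool)
        (l : Polynomial ℕ), PolyTime pairStr (fun y => y) C ∧
          ∀ W : List Bool → Bool, SolvesSD C l W → InPO W L) ∧
      (SDInP → ∀ L : Set (List Bool), InNP L → InP L)) := by
  refine ⟨?_, ?_⟩
  · rintro ⟨D, hD⟩
    have hD' : ORCompressionLog R R' D := hD.elim (fun h => h.compressionLog) id
    refine ⟨fun L hL => ORZ.exists_samplers_log hR hD' hL,
      fun L hL => ORZ.exists_collisions hR hD' hL, fun h L hL => ?_⟩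
    obtain ⟨C, hC, _, hCL⟩ := ORZ.exists_collisions hR hD' hL
    exact hCL (h C hC)
  · rintro ⟨D, hD⟩
    exact ⟨fun L hL => ORZ.exists_sd hR hD hL,
      fun h L hL => ORZ.np_eq_p (ORZ.exists_sd hR hD hL) h⟩
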